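import Pool.Agent.H30.SY.Stm

/-!
# First-passage percolation: a cluster near the limit shape is symmetric
-/

set_option autoImplicit false

open MeasureTheory ProbabilityTheory Finset Filter
open scoped Topology Pointwise

namespace Pool.Agent.H96.SY

open Q70.Fp Pool.Agent.H30.SY

theorem mu_low {μ : ℝ × ℝ → ℝ} (h : Shape μ) (x : ℝ × ℝ) : (|x.1| + |x.2|) / 22 ≤ μ x := by
  have h1 := fl_lim h x
  have h2 : Tendsto (fun n : ℕ => (|(n:ℝ)⁻¹ * (⌊(n:ℝ) * x.1⌋ : ℝ)| + |(n:ℝ)⁻¹ * (⌊(n:ℝ) * x.2⌋ : ℝ)|) / 22)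
      atTop (𝓝 ((|x.1| + |x.2|) / 22)) :=
    ((floor_lim x.1).abs.add (floor_lim x.2).abs).div_const 22
  refine le_of_tendsto_of_tendsto h2 h1 ?_
  filter_upwards [eventually_ge_atTop 1] with n hn
  have hn0 : (0:ℝ) < n := by exact_mod_cast hn
  have h3 := mz_low h (fl n x)
  have h4 : (dd 0 (fl n x) : ℝ) = |(⌊(n:ℝ) * x.1⌋ : ℝ)| + |(⌊(n:ℝ) * x.2⌋ : ℝ)| := by
    simp [dd, fl, Nat.cast_natAbs]
  rw [h4] at h3
  rw [abs_mul, abs_mul, abs_of_pos (inv_pos.mpr hn0), ← mul_add, mul_div_assoc]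
  exact mul_le_mul_of_nonneg_left h3 (inv_pos.mpr hn0).le

theorem t_GEO (hEV : S_EVEN) : S_GEO := by
  intro μ h w t r ht hr hr1 H1 H2
  rintro ⟨v, hv, hfar⟩
  have hvB : ((v.1 : ℝ), (v.2 : ℝ)) ∈ ((1 + r) * t) • {x : ℝ × ℝ | μ x ≤ 1} :=
    H1 ⟨v, hv, by simp, by simp⟩
  obtain ⟨x, hx, hxv⟩ := Set.mem_smul_set.mp hvB
  have hx1 : μ x ≤ 1 := hx
  have hz : ((1 - r) * t) • (-x) ∈ ((1 - r) * t) • {x : ℝ × ℝ | μ x ≤ 1} :=
    Set.smul_mem_smul_set (show μ (-x) ≤ 1 by rw [hEV μ h x]; exact hx1)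
  obtain ⟨y, hy, hy1, hy2⟩ := H2 hz
  have hlow := mu_low h x
  have hrt : 0 < r * t := mul_pos hr ht
  have e1 : (1 + r) * t * x.1 = v.1 := by
    have := congrArg Prod.fst hxv
    simpa using this
  have e2 : (1 + r) * t * x.2 = v.2 := by
    have := congrArg Prod.snd hxv
    simpa using this
  simp only [Prod.smul_fst, Prod.smul_snd, Prod.fst_neg, Prod.snd_neg, smul_eq_mul] at hy1 hy2
  have k1 : |(y.1 : ℝ) + v.1| ≤ 1 / 2 + 2 * (r * t) * |x.1| := by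
    have e3 : (y.1 : ℝ) + v.1 = -((1 - r) * t * -x.1 - y.1) + 2 * (r * t) * x.1 := by
      rw [← e1]; ring
    rw [e3]
    refine (abs_add_le _ _).trans ?_
    rw [abs_neg, abs_mul (2 * (r * t)), abs_of_pos (show 0 < 2 * (r * t) by positivity)]
    linarith
  have k2 : |(y.2 : ℝ) + v.2| ≤ 1 / 2 + 2 * (r * t) * |x.2| := by
    have e3 : (y.2 : ℝ) + v.2 = -((1 - r) * t * -x.2 - y.2) + 2 * (r * t) * x.2 := by
      rw [← e2]; ring
    rw [e3]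
    refine (abs_add_le _ _).trans ?_
    rw [abs_neg, abs_mul (2 * (r * t)), abs_of_pos (show 0 < 2 * (r * t) by positivity)]
    linarith
  have hf := hfar y hy
  have e4 : (dd 0 (y + v) : ℝ) = |(y.1 : ℝ) + v.1| + |(y.2 : ℝ) + v.2| := by
    simp [dd, Nat.cast_natAbs]
  rw [e4] at hf
  have h5 : |x.1| + |x.2| ≤ 22 := by linarith
  nlinarith

end Pool.Agent.H96.SY
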