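import Pool.Agent.H30.SY.Stm3
import Pool.Agent.H96.SY.GEO

/-!
# First-passage percolation: clusters near the limit shape at the times `t` and `2 t`
-/

set_option autoImplicit false

open MeasureTheory ProbabilityTheory Finset Filter
open scoped Topology Pointwise

namespace Pool.Agent.H96.SY

open Q70.Fp Pool.Agent.H30.SY

theorem t_GEO2 : S_GEO2 := by
  intro μ h w t r ht hr hr1 H1 H2 H3 H4 hD
  have hrt : 0 < r * t := mul_pos hr ht
  rcases hD with ⟨v, hv, hfar⟩ | ⟨y, hy, hfar⟩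
  · have hvB : ((v.1 : ℝ), (v.2 : ℝ)) ∈ ((1 + r) * t) • {x : ℝ × ℝ | μ x ≤ 1} :=
      H1 ⟨v, hv, by simp, by simp⟩
    obtain ⟨x, hx, hxv⟩ := Set.mem_smul_set.mp hvB
    have hx1 : μ x ≤ 1 := hx
    have hz : ((1 - r) * (2 * t)) • x ∈ ((1 - r) * (2 * t)) • {x : ℝ × ℝ | μ x ≤ 1} :=
      Set.smul_mem_smul_set hx
    obtain ⟨y, hy, hy1, hy2⟩ := H4 hz
    have hlow := mu_low h x
    have e1 : (1 + r) * t * x.1 = v.1 := by
      have := congrArg Prod.fst hxv
      simpa using this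
    have e2 : (1 + r) * t * x.2 = v.2 := by
      have := congrArg Prod.snd hxv
      simpa using this
    simp only [Prod.smul_fst, Prod.smul_snd, smul_eq_mul] at hy1 hy2
    have k1 : |(y.1 : ℝ) - (v.1 + v.1)| ≤ 1 / 2 + 4 * (r * t) * |x.1| := by
      have e3 : (y.1 : ℝ) - (v.1 + v.1) = -(((1 - r) * (2 * t) * x.1 - y.1) + 4 * (r * t) * x.1) := by
        rw [← e1]; ring
      rw [e3, abs_neg]
      refine (abs_add_le _ _).trans ?_
      rw [abs_mul (4 * (r * t)), abs_of_pos (show 0 < 4 * (r * t) by positivity)]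
      linarith
    have k2 : |(y.2 : ℝ) - (v.2 + v.2)| ≤ 1 / 2 + 4 * (r * t) * |x.2| := by
      have e3 : (y.2 : ℝ) - (v.2 + v.2) = -(((1 - r) * (2 * t) * x.2 - y.2) + 4 * (r * t) * x.2) := by
        rw [← e2]; ring
      rw [e3, abs_neg]
      refine (abs_add_le _ _).trans ?_
      rw [abs_mul (4 * (r * t)), abs_of_pos (show 0 < 4 * (r * t) by positivity)]
      linarith
    have hf := hfar y hy
    have e4 : (dd 0 (y - (v + v)) : ℝ) = |(y.1 : ℝ) - (v.1 + v.1)| + |(y.2 : ℝ) - (v.2 + v.2)| := by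
      simp [dd, Nat.cast_natAbs]
    rw [e4] at hf
    have h5 : |x.1| + |x.2| ≤ 22 := by linarith
    nlinarith
  · have hyB : ((y.1 : ℝ), (y.2 : ℝ)) ∈ ((1 + r) * (2 * t)) • {x : ℝ × ℝ | μ x ≤ 1} :=
      H3 ⟨y, hy, by simp, by simp⟩
    obtain ⟨x, hx, hxy⟩ := Set.mem_smul_set.mp hyB
    have hx1 : μ x ≤ 1 := hx
    have hz : ((1 - r) * t) • x ∈ ((1 - r) * t) • {x : ℝ × ℝ | μ x ≤ 1} :=
      Set.smul_mem_smul_set hx
    obtain ⟨v, hv, hv1, hv2⟩ := H2 hz
    have hlow := mu_low h x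
    have e1 : (1 + r) * (2 * t) * x.1 = y.1 := by
      have := congrArg Prod.fst hxy
      simpa using this
    have e2 : (1 + r) * (2 * t) * x.2 = y.2 := by
      have := congrArg Prod.snd hxy
      simpa using this
    simp only [Prod.smul_fst, Prod.smul_snd, smul_eq_mul] at hv1 hv2
    have k1 : |(y.1 : ℝ) - (v.1 + v.1)| ≤ 1 + 4 * (r * t) * |x.1| := by
      have e3 : (y.1 : ℝ) - (v.1 + v.1) = 2 * ((1 - r) * t * x.1 - v.1) + 4 * (r * t) * x.1 := by
        rw [← e1]; ring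
      rw [e3]
      refine (abs_add_le _ _).trans ?_
      rw [abs_mul (4 * (r * t)), abs_of_pos (show 0 < 4 * (r * t) by positivity), abs_mul 2,
        abs_of_pos (show (0:ℝ) < 2 by norm_num)]
      linarith
    have k2 : |(y.2 : ℝ) - (v.2 + v.2)| ≤ 1 + 4 * (r * t) * |x.2| := by
      have e3 : (y.2 : ℝ) - (v.2 + v.2) = 2 * ((1 - r) * t * x.2 - v.2) + 4 * (r * t) * x.2 := by
        rw [← e2]; ring
      rw [e3]
      refine (abs_add_le _ _).trans ?_
      rw [abs_mul (4 * (r * t)), abs_of_pos (show 0 < 4 * (r * t) by positivity), abs_mul 2,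
        abs_of_pos (show (0:ℝ) < 2 by norm_num)]
      linarith
    have hf := hfar v hv
    have e4 : (dd 0 (y - (v + v)) : ℝ) = |(y.1 : ℝ) - (v.1 + v.1)| + |(y.2 : ℝ) - (v.2 + v.2)| := by
      simp [dd, Nat.cast_natAbs]
    rw [e4] at hf
    have h5 : |x.1| + |x.2| ≤ 22 := by linarith
    nlinarith

end Pool.Agent.H96.SY
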