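import Pool.Agent.H30.SY.Stm4
import Pool.Agent.H96.SY.GEO

/-!
# First-passage percolation: a cluster near a dilate of the limit shape is symmetric
-/

set_option autoImplicit false

open MeasureTheory ProbabilityTheory Finset Filter
open scoped Topology Pointwise

namespace Pool.Agent.H96.SY

open Q70.Fp Pool.Agent.H30.SY

theorem t_GEO3 (hEV : S_EVEN) : S_GEO3 := by
  intro μ h w t r ρ M ht hr hr1 hρ HM H1 H2
  rintro ⟨v, hv, hfar⟩
  -- the bound of `ρ`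
  have hρM : ρ ≤ 6 * (M * t + 1) := by
    set e : ℤ × ℤ := (1, 0) with he
    have hd : (dd 0 e : ℝ) = 1 := by simp [dd, he]
    have m1 := mz_low h e
    have m2 := mz_up h e
    rw [hd] at m1 m2
    have hm0 : 0 < mz μ e := by linarith
    have hmem : ((1 - r) * ρ) • ((mz μ e)⁻¹ • ((1:ℝ), (0:ℝ))) ∈
        ((1 - r) * ρ) • {x : ℝ × ℝ | μ x ≤ 1} := by
      refine Set.smul_mem_smul_set ?_
      show μ ((mz μ e)⁻¹ • ((1:ℝ), (0:ℝ))) ≤ 1
      rw [h.hom _ _ (inv_pos.mpr hm0).le]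
      have e1 : μ ((1:ℝ), (0:ℝ)) = mz μ e := by simp [mz, he]
      rw [e1, inv_mul_cancel₀ hm0.ne']
    obtain ⟨y, hy, hy1, -⟩ := H2 hmem
    simp only [Prod.smul_fst, smul_eq_mul, mul_one] at hy1
    have k1 := HM y hy
    have k2 : |(y.1 : ℝ)| ≤ dd 0 y := by
      simp [dd, Nat.cast_natAbs]
    have k3 : (1 - r) * ρ * (mz μ e)⁻¹ ≤ M * t + 1 / 2 := by
      have h1 := (abs_le.mp hy1).2
      have h2 := le_abs_self (y.1 : ℝ)
      linarith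
    have k4 : (1:ℝ) / 3 ≤ (mz μ e)⁻¹ := by
      rw [one_div]
      exact inv_anti₀ hm0 (by linarith)
    have k5 : ρ / 2 ≤ (1 - r) * ρ := by nlinarith
    have k6 : ρ / 2 * (1 / 3) ≤ (1 - r) * ρ * (mz μ e)⁻¹ :=
      mul_le_mul k5 k4 (by norm_num) (by nlinarith)
    linarith
  have hvB : ((v.1 : ℝ), (v.2 : ℝ)) ∈ ((1 + r) * ρ) • {x : ℝ × ℝ | μ x ≤ 1} :=
    H1 ⟨v, hv, by simp, by simp⟩
  obtain ⟨x, hx, hxv⟩ := Set.mem_smul_set.mp hvB
  have hx1 : μ x ≤ 1 := hx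
  have hz : ((1 - r) * ρ) • (-x) ∈ ((1 - r) * ρ) • {x : ℝ × ℝ | μ x ≤ 1} :=
    Set.smul_mem_smul_set (show μ (-x) ≤ 1 by rw [hEV μ h x]; exact hx1)
  obtain ⟨y, hy, hy1, hy2⟩ := H2 hz
  have hlow := mu_low h x
  have hrt : 0 ≤ r * ρ := mul_nonneg hr.le hρ
  have e1 : (1 + r) * ρ * x.1 = v.1 := by
    have := congrArg Prod.fst hxv
    simpa using this
  have e2 : (1 + r) * ρ * x.2 = v.2 := by
    have := congrArg Prod.snd hxv
    simpa using this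
  simp only [Prod.smul_fst, Prod.smul_snd, Prod.fst_neg, Prod.snd_neg, smul_eq_mul] at hy1 hy2
  have k1 : |(y.1 : ℝ) + v.1| ≤ 1 / 2 + 2 * (r * ρ) * |x.1| := by
    have e3 : (y.1 : ℝ) + v.1 = -((1 - r) * ρ * -x.1 - y.1) + 2 * (r * ρ) * x.1 := by
      rw [← e1]; ring
    rw [e3]
    refine (abs_add_le _ _).trans ?_
    rw [abs_neg, abs_mul (2 * (r * ρ)), abs_of_nonneg (show 0 ≤ 2 * (r * ρ) by positivity)]
    linarith
  have k2 : |(y.2 : ℝ) + v.2| ≤ 1 / 2 + 2 * (r * ρ) * |x.2| := by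
    have e3 : (y.2 : ℝ) + v.2 = -((1 - r) * ρ * -x.2 - y.2) + 2 * (r * ρ) * x.2 := by
      rw [← e2]; ring
    rw [e3]
    refine (abs_add_le _ _).trans ?_
    rw [abs_neg, abs_mul (2 * (r * ρ)), abs_of_nonneg (show 0 ≤ 2 * (r * ρ) by positivity)]
    linarith
  have hf := hfar y hy
  have e4 : (dd 0 (y + v) : ℝ) = |(y.1 : ℝ) + v.1| + |(y.2 : ℝ) + v.2| := by
    simp [dd, Nat.cast_natAbs]
  rw [e4] at hf
  have h5 : |x.1| + |x.2| ≤ 22 := by linarith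
  have h6 : 2 * (r * ρ) * (|x.1| + |x.2|) ≤ 2 * (r * ρ) * 22 :=
    mul_le_mul_of_nonneg_left h5 (by positivity)
  have h7 : r * ρ ≤ r * (6 * (M * t + 1)) := mul_le_mul_of_nonneg_left hρM hr.le
  linarith

end Pool.Agent.H96.SY
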