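import Pool.Agent.H30.SY.Stm3

/-!
# First-passage percolation: one step up and one step down
-/

set_option autoImplicit false

open MeasureTheory ProbabilityTheory Finset Filter
open scoped Topology Pointwise

namespace Pool.Agent.H96.SY

open Q70.Fp Pool.Agent.H30.SY

theorem slow (z : ℤ × ℤ) (R : ℕ) :
    nu.real {w | ∃ x ∈ ball R 0, 3 * (R:ℝ) ≤ TT (pw w) (z + x) z} ≤
      (2 * (R:ℝ) + 1) ^ 2 * (1 / 2) ^ R := by
  have e1 : {w | ∃ x ∈ ball R 0, 3 * (R:ℝ) ≤ TT (pw w) (z + x) z} =
      ⋃ x ∈ ball R 0, {w | 3 * (R:ℝ) ≤ TT (pw w) (z + x) z} := by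
    ext w
    simp only [Set.mem_ofPred_eq, Set.mem_iUnion, exists_prop]
  rw [e1]
  refine (measureReal_biUnion_finset_le _ _).trans ?_
  have h1 : ∀ x ∈ ball R 0, nu.real {w | 3 * (R:ℝ) ≤ TT (pw w) (z + x) z} ≤ (1 / 2) ^ R := by
    intro x hx
    rw [mem_ball] at hx
    apply straight
    have h2 := dd_add x 0 z
    rw [zero_add, dd_comm x 0] at h2
    rw [add_comm z x, h2]
    exact hx
  refine (Finset.sum_le_sum h1).trans ?_
  rw [Finset.sum_const, nsmul_eq_mul]
  refine mul_le_mul_of_nonneg_right ?_ (by positivity)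
  exact_mod_cast card_ball R

theorem t_ONE2 : S_ONE2 := by
  intro u t r R hrR
  constructor
  · have hsub : {w | TT (pw w) 0 u ≤ t ∧ 2 * t + 3 * (R:ℝ) < TT (pw w) 0 (u + u)} ⊆
        {w | DC (pw w) t r} ∪ {w | ∃ x ∈ ball R 0, 3 * (R:ℝ) ≤ TT (pw w) ((u + u) + x) (u + u)} := by
      rintro w ⟨h1, h2⟩
      by_cases hD : DC (pw w) t r
      · exact Or.inl hD
      · refine Or.inr ?_
        unfold DC at hD
        rw [not_or] at hD
        obtain ⟨hD1, -⟩ := hD
        push Not at hD1
        obtain ⟨y, hy1, hy2⟩ := hD1 u h1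
        refine ⟨y - (u + u), ?_, ?_⟩
        · rw [mem_ball]
          exact_mod_cast hy2.trans hrR
        · rw [add_sub_cancel]
          have := TT_tri (pw_nonneg w) 0 y (u + u)
          linarith
    refine (measureReal_mono hsub (measure_ne_top _ _)).trans ((measureReal_union_le _ _).trans ?_)
    linarith [slow (u + u) R]
  · have hsub : {w | t + 3 * (R:ℝ) < TT (pw w) 0 u ∧ TT (pw w) 0 (u + u) ≤ 2 * t} ⊆
        {w | DC (pw w) t r} ∪ {w | ∃ x ∈ ball R 0, 3 * (R:ℝ) ≤ TT (pw w) (u + x) u} := by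
      rintro w ⟨h1, h2⟩
      by_cases hD : DC (pw w) t r
      · exact Or.inl hD
      · refine Or.inr ?_
        unfold DC at hD
        rw [not_or] at hD
        obtain ⟨-, hD2⟩ := hD
        push Not at hD2
        obtain ⟨v, hv1, hv2⟩ := hD2 (u + u) h2
        have h3 : dd 0 ((u + u) - (v + v)) ≤ R := by exact_mod_cast hv2.trans hrR
        refine ⟨v - u, ?_, ?_⟩
        · rw [mem_ball]
          simp only [dd, Prod.fst_sub, Prod.snd_sub, Prod.fst_add, Prod.snd_add, Prod.fst_zero,
            Prod.snd_zero] at h3 ⊢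
          omega
        · rw [add_sub_cancel]
          have := TT_tri (pw_nonneg w) 0 v u
          linarith
    refine (measureReal_mono hsub (measure_ne_top _ _)).trans ((measureReal_union_le _ _).trans ?_)
    linarith [slow u R]

end Pool.Agent.H96.SY
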