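import Pool.Agent.H30.SY.Stm5

/-!
# First-passage percolation: bisecting midpoints give closeness to the medians
-/

set_option autoImplicit false

open MeasureTheory ProbabilityTheory Finset Filter
open scoped Topology Pointwise

namespace Pool.Agent.H96.SY

open Q70.Fp Pool.Agent.H30.SY

lemma three_quarters (J : ℕ) :
    (3 / 4 : ℝ) ^ (J + 1) = Real.exp (-(Real.log (4 / 3) * ((J : ℝ) + 1))) := by
  have h : (3 / 4 : ℝ) = Real.exp (-(Real.log (4 / 3))) := by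
    rw [Real.exp_neg, Real.exp_log (by norm_num)]
    norm_num
  rw [h, ← Real.exp_nat_mul]
  congr 1
  push_cast
  ring

lemma medians (hMED : ∀ v : ℤ × ℤ, 132 ≤ dd 0 v → ∃ c : ℝ,
    3 * ((dd 0 v / 66 : ℕ) : ℝ) ≤ c ∧ c ≤ 3 * (dd 0 v : ℝ) ∧
    nu.real {w | TT (pw w) 0 v < c} ≤ 1 / 2 ∧ nu.real {w | c < TT (pw w) 0 v} ≤ 1 / 2)
    (v : ℤ × ℤ) : ∃ m : ℝ, 0 ≤ m ∧ m ≤ 3 * (dd 0 v : ℝ) ∧ (132 ≤ dd 0 v →
      nu.real {w | TT (pw w) 0 v < m} ≤ 1 / 2 ∧ nu.real {w | m < TT (pw w) 0 v} ≤ 1 / 2) := by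
  by_cases h : 132 ≤ dd 0 v
  · obtain ⟨c, h1, h2, h3, h4⟩ := hMED v h
    exact ⟨c, le_trans (by positivity) h1, h2, fun _ => ⟨h3, h4⟩⟩
  · exact ⟨0, le_rfl, by positivity, fun h' => absurd h' h⟩

theorem t_U2 (hU1 : S_U1) : S_U2 := by
  intro hMED b hb hb1 hB
  choose m hm1 hm2 hm3 using medians hMED
  refine ⟨m, fun ζ hζ => ?_⟩
  set δ : ℝ := ζ / (4 * (2 + ζ)) with hδ
  have hδ0 : 0 < δ := by positivity
  have hδ1 : δ * (2 + ζ) = ζ / 4 := by rw [hδ]; field_simp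
  have hδ2 : δ < 1 := by rw [hδ, div_lt_one (by positivity)]; linarith
  obtain ⟨c, hc, hev⟩ := hB (ζ / 4) (by linarith)
  obtain ⟨N0, hN0⟩ := eventually_atTop.1 hev
  set e : ℝ := b + ζ / 4 with he
  have he0 : 0 < e := by positivity
  obtain ⟨C1, hC1, hE1⟩ := exp_poly (10 / δ) (by positivity)
    (Real.log_pos (show (1 : ℝ) < 4 / 3 by norm_num))
  obtain ⟨C2, hC2, hE2⟩ := half_poly (6 / b) (by positivity)
  set C3 : ℝ := 8 / 3 * C1 + 5 * C2 with hC3
  have hC30 : 0 < C3 := by positivity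
  have hlim1 : Tendsto (fun n : ℕ => (n : ℝ) ^ (δ / 2)) atTop atTop :=
    (tendsto_rpow_atTop (by positivity)).comp tendsto_natCast_atTop_atTop
  have hlim2 : Tendsto (fun n : ℕ => (n : ℝ)) atTop atTop := tendsto_natCast_atTop_atTop
  refine ⟨c / 2, by linarith, ?_⟩
  filter_upwards [eventually_ge_atTop N0, eventually_ge_atTop 1, hlim1.eventually_ge_atTop 136,
    hlim2.eventually_ge_atTop (162 * C3 / c),
    pow_small (c := b + ζ / 2) (a := b + ζ) (K := 133 * 2 ^ e) (by linarith),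
    pow_small (c := b) (a := b + ζ) (K := 402) (by linarith)] with n hnN hn1 hA136 hnc hp1 hp2
  have hX1 : (1 : ℝ) ≤ n := by exact_mod_cast hn1
  have hX0 : (0 : ℝ) < n := by linarith
  set X : ℝ := (n : ℝ) with hX
  set A : ℝ := X ^ (δ / 2) with hA
  set J : ℕ := ⌊A⌋₊ with hJ
  have hA0 : 0 < A := by linarith
  have hJA : (J : ℝ) ≤ A := Nat.floor_le hA0.le
  have hAJ : A < (J : ℝ) + 1 := Nat.lt_floor_add_one A
  have hAA : A * A = X ^ δ := by
    rw [hA, ← Real.rpow_add hX0]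
    congr 1
    ring
  set Y : ℝ := X ^ (1 + δ) with hY
  have hYX : Y = X * (A * A) := by rw [hAA, hY, Real.rpow_add hX0, Real.rpow_one]
  have hY1 : 1 ≤ Y := Real.one_le_rpow hX1 (by linarith)
  set Nn : ℕ := ⌈Y⌉₊ with hNn
  have hYN : Y ≤ Nn := Nat.le_ceil Y
  have hNY : (Nn : ℝ) ≤ 2 * Y := by
    have := Nat.ceil_lt_add_one (show 0 ≤ Y by linarith)
    linarith
  have hJ0 : (0 : ℝ) ≤ J := Nat.cast_nonneg J
  have hbig : n + (133 * J + 2) * n ≤ Nn := by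
    have h1 : ((n + (133 * J + 2) * n : ℕ) : ℝ) ≤ Nn := by
      push_cast
      refine le_trans ?_ hYN
      rw [hYX]
      have h2 : (n : ℝ) + (133 * J + 2) * n = X * (133 * J + 3) := by rw [hX]; ring
      rw [h2]
      refine mul_le_mul_of_nonneg_left ?_ hX0.le
      nlinarith
    exact_mod_cast h1
  have hnNn : n ≤ Nn := le_trans (Nat.le_add_right _ _) hbig
  set s : ℝ := (Nn : ℝ) ^ e with hs
  have hs0 : 0 ≤ s := by positivity
  have hexp : δ / 2 + (1 + δ) * e ≤ b + ζ / 2 := by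
    have h1 : δ * (b + ζ / 4 + 1 / 2) ≤ δ * (2 + ζ) :=
      mul_le_mul_of_nonneg_left (by linarith) hδ0.le
    rw [he]
    nlinarith
  have hsle : s ≤ 2 ^ e * X ^ ((1 + δ) * e) := by
    rw [Real.rpow_mul hX0.le, ← Real.mul_rpow (by norm_num) (by positivity)]
    exact Real.rpow_le_rpow (by positivity) hNY he0.le
  have h2e : (0 : ℝ) < 2 ^ e := by positivity
  have hAs : A * s ≤ 2 ^ e * X ^ (b + ζ / 2) := by
    calc A * s ≤ A * (2 ^ e * X ^ ((1 + δ) * e)) := mul_le_mul_of_nonneg_left hsle hA0.le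
      _ = 2 ^ e * X ^ (δ / 2 + (1 + δ) * e) := by rw [Real.rpow_add hX0, hA]; ring
      _ ≤ 2 ^ e * X ^ (b + ζ / 2) :=
        mul_le_mul_of_nonneg_left (Real.rpow_le_rpow_of_exponent_le hX1 hexp) h2e.le
  have hXb : 0 < X ^ (b + ζ) := by positivity
  have hJs : 133 * (J : ℝ) * s ≤ X ^ (b + ζ) := by
    have h1 : (J : ℝ) * s ≤ A * s := mul_le_mul_of_nonneg_right hJA hs0
    nlinarith
  have hsX : s ≤ X ^ (b + ζ) := by
    have h1 : s ≤ A * s := le_mul_of_one_le_left hs0 (by linarith)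
    have h2 : 0 < 2 ^ e * X ^ (b + ζ / 2) := by positivity
    nlinarith
  set L : ℕ := ⌈X ^ b⌉₊ + 132 with hL
  have hXb1 : 1 ≤ X ^ b := Real.one_le_rpow hX1 hb.le
  have hLle : (L : ℝ) ≤ 134 * X ^ b := by
    have h1 := Nat.ceil_lt_add_one (show 0 ≤ X ^ b by linarith)
    rw [hL]
    push_cast
    linarith
  have hLge : X ^ b ≤ (L : ℝ) + 1 := by
    have h1 := Nat.le_ceil (X ^ b)
    rw [hL]
    push_cast
    linarith
  have hL3 : 3 * (L : ℝ) ≤ X ^ (b + ζ) := by linarith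
  -- the probabilities
  have hq1 : (3 / 4 : ℝ) ^ J ≤ 4 / 3 * (C1 * X ^ (-5 : ℝ)) := by
    have h1 := hE1 ((J : ℝ) + 1) (by linarith)
    rw [← three_quarters] at h1
    have h2 : ((J : ℝ) + 1) ^ (-(10 / δ)) ≤ A ^ (-(10 / δ)) :=
      Real.rpow_le_rpow_of_nonpos hA0 hAJ.le (by
        have : 0 < 10 / δ := by positivity
        linarith)
    have h3 : A ^ (-(10 / δ)) = X ^ (-5 : ℝ) := by
      rw [hA, ← Real.rpow_mul hX0.le]
      congr 1
      field_simp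
      norm_num
    rw [h3] at h2
    have h4 := mul_le_mul_of_nonneg_left h2 hC1.le
    rw [pow_succ] at h1
    linarith
  have hq2 : (1 / 2 : ℝ) ^ L ≤ C2 * X ^ (-6 : ℝ) := by
    refine (hE2 L).trans (mul_le_mul_of_nonneg_left ?_ hC2.le)
    have h1 : ((L : ℝ) + 1) ^ (-(6 / b)) ≤ (X ^ b) ^ (-(6 / b)) :=
      Real.rpow_le_rpow_of_nonpos (by linarith) hLge (by
        have : 0 < 6 / b := by positivity
        linarith)
    have h3 : (X ^ b) ^ (-(6 / b)) = X ^ (-6 : ℝ) := by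
      rw [← Real.rpow_mul hX0.le]
      congr 1
      field_simp
    rw [h3] at h1
    exact h1
  have hq3 : (J : ℝ) * (1 / 2) ^ L ≤ C2 * X ^ (-5 : ℝ) := by
    have h1 : A ≤ X := by
      calc A ≤ X ^ (1 : ℝ) := Real.rpow_le_rpow_of_exponent_le hX1 (by linarith)
        _ = X := Real.rpow_one X
    have h2 : X * X ^ (-6 : ℝ) = X ^ (-5 : ℝ) := by
      nth_rewrite 1 [← Real.rpow_one X]
      rw [← Real.rpow_add hX0]
      norm_num
    calc (J : ℝ) * (1 / 2) ^ L ≤ X * (C2 * X ^ (-6 : ℝ)) :=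
          mul_le_mul (hJA.trans h1) hq2 (by positivity) hX0.le
      _ = C2 * (X * X ^ (-6 : ℝ)) := by ring
      _ = C2 * X ^ (-5 : ℝ) := by rw [h2]
  have hq4 : (1 / 2 : ℝ) ^ L ≤ C2 * X ^ (-5 : ℝ) := by
    refine hq2.trans (mul_le_mul_of_nonneg_left ?_ hC2.le)
    exact Real.rpow_le_rpow_of_exponent_le hX1 (by norm_num)
  set p : ℝ := 2 * (3 / 4) ^ J + 4 * J * (1 / 2) ^ L + (1 / 2) ^ L with hp
  have hpC : p ≤ C3 * X ^ (-5 : ℝ) := by
    have e1 : C3 * X ^ (-5 : ℝ) = 8 / 3 * (C1 * X ^ (-5 : ℝ)) + 5 * (C2 * X ^ (-5 : ℝ)) := by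
      rw [hC3]
      ring
    have e2 : p = 2 * (3 / 4) ^ J + 4 * ((J : ℝ) * (1 / 2) ^ L) + (1 / 2) ^ L := by
      rw [hp]
      ring
    rw [e1, e2]
    generalize C1 * X ^ (-5 : ℝ) = y1 at *
    generalize C2 * X ^ (-5 : ℝ) = y2 at *
    generalize (3 / 4 : ℝ) ^ J = y3 at *
    generalize (J : ℝ) * (1 / 2) ^ L = y4 at *
    generalize (1 / 2 : ℝ) ^ L = y5 at *
    linarith
  have hp0 : 0 ≤ p := by positivity
  classical
  set E : (ℤ × ℤ) × (ℤ × ℤ) → Set (Ed → ℝ) := fun a =>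
    if L ≤ dd 0 a.2 then
      {w | BS (pw w) Nn s ∧ 133 * (J:ℝ) * s < |TT (pw w) a.1 (a.1 + a.2) - m a.2|}
    else {w | 3 * (L:ℝ) ≤ TT (pw w) a.1 (a.1 + a.2)} with hE
  have hEp : ∀ a ∈ ball n 0 ×ˢ ball n 0, nu.real (E a) ≤ p := by
    intro a ha
    obtain ⟨ha1, ha2⟩ := Finset.mem_product.1 ha
    have d1 := mem_ball.1 ha1
    have d2 := mem_ball.1 ha2
    simp only [hE]
    split_ifs with hLd
    · have h132 : 132 ≤ dd 0 a.2 := by omega
      have h1 := hU1 a.2 a.1 J Nn s (m a.2) (by omega) hs0 (by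
        refine le_trans ?_ hbig
        have := Nat.mul_le_mul_left (133 * J + 2) d2
        omega) (hm3 a.2 h132).1 (hm3 a.2 h132).2
      refine h1.trans ?_
      have h2 : (1 / 2 : ℝ) ^ dd 0 a.2 ≤ (1 / 2) ^ L :=
        pow_le_pow_of_le_one (by norm_num) (by norm_num) hLd
      have h3 : 4 * (J:ℝ) * (1 / 2) ^ dd 0 a.2 ≤ 4 * J * (1 / 2) ^ L :=
        mul_le_mul_of_nonneg_left h2 (by positivity)
      have h4 : (0 : ℝ) ≤ (1 / 2) ^ L := by positivity
      rw [hp]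
      linarith
    · have h1 : nu.real {w | 3 * (L:ℝ) ≤ TT (pw w) a.1 (a.1 + a.2)} ≤ (1 / 2) ^ L := by
        refine straight ?_
        have h2 : dd a.1 (a.1 + a.2) = dd 0 a.2 := by
          simp only [dd, Prod.fst_add, Prod.snd_add, Prod.fst_zero, Prod.snd_zero]
          omega
        omega
      refine h1.trans ?_
      have h4 : (0 : ℝ) ≤ 2 * (3 / 4) ^ J + 4 * J * (1 / 2) ^ L := by positivity
      rw [hp]
      linarith
  have hsub : {w : Ed → ℝ | BS (pw w) Nn s} ⊆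
      {w : Ed → ℝ | ∀ x ∈ ball n 0, ∀ v ∈ ball n 0,
        |TT (pw w) x (x + v) - m v| ≤ (n:ℝ) ^ (b + ζ) ∧
        |TT (pw w) x (x + v + v) - 2 * TT (pw w) x (x + v)| ≤ (n:ℝ) ^ (b + ζ)} ∪
      ⋃ a ∈ ball n 0 ×ˢ ball n 0, E a := by
    intro w hw
    by_cases h : w ∈ ⋃ a ∈ ball n 0 ×ˢ ball n 0, E a
    · exact Or.inr h
    · refine Or.inl fun x hx v hv => ?_
      have dx := mem_ball.1 hx
      have dv := mem_ball.1 hv
      have hw' : BS (pw w) Nn s := hw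
      refine ⟨?_, (hw' x (mem_ball.2 (dx.trans hnNn)) v (mem_ball.2 (dv.trans hnNn))).trans hsX⟩
      have hnE : w ∉ E (x, v) := by
        intro h'
        exact h (Set.mem_biUnion (show (x, v) ∈ ((ball n 0 ×ˢ ball n 0 : Finset _) : Set _) from
          Finset.mem_coe.2 (Finset.mem_product.2 ⟨hx, hv⟩)) h')
      simp only [hE] at hnE
      split_ifs at hnE with hLd
      · have h1 : ¬ (BS (pw w) Nn s ∧ 133 * (J:ℝ) * s < |TT (pw w) x (x + v) - m v|) := hnE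
        have h2 : ¬ 133 * (J:ℝ) * s < |TT (pw w) x (x + v) - m v| := fun h' => h1 ⟨hw', h'⟩
        exact (not_lt.1 h2).trans hJs
      · have h1 : ¬ (3 * (L:ℝ) ≤ TT (pw w) x (x + v)) := hnE
        have h2 := not_le.1 h1
        have h3 := TT_nonneg (pw_nonneg w) x (x + v)
        have h4 := hm1 v
        have h5 := hm2 v
        have h6 : (dd 0 v : ℝ) ≤ L := by exact_mod_cast (not_le.1 hLd).le
        exact abs_le.2 ⟨by linarith, by linarith⟩
  have hcard : ((ball n 0 ×ˢ ball n 0).card : ℝ) ≤ 81 * X ^ (4 : ℕ) := by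
    rw [Finset.card_product]
    push_cast
    have h1 : ((ball n 0).card : ℝ) ≤ 9 * X ^ (2 : ℕ) := by
      have h2 : ((ball n 0).card : ℝ) ≤ ((2 * n + 1 : ℕ) : ℝ) ^ 2 := by exact_mod_cast card_ball n
      push_cast at h2
      refine h2.trans ?_
      have h3 : 2 * (n : ℝ) + 1 ≤ 3 * X := by linarith
      calc (2 * (n : ℝ) + 1) ^ 2 ≤ (3 * X) ^ 2 := pow_le_pow_left₀ (by positivity) h3 2
        _ = 9 * X ^ (2 : ℕ) := by ring
    calc ((ball n 0).card : ℝ) * (ball n 0).card ≤ (9 * X ^ 2) * (9 * X ^ 2) :=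
          mul_le_mul h1 h1 (Nat.cast_nonneg _) (by positivity)
      _ = 81 * X ^ 4 := by ring
  have hun : nu.real (⋃ a ∈ ball n 0 ×ˢ ball n 0, E a) ≤ c / 2 := by
    refine (measureReal_biUnion_finset_le _ _).trans ?_
    refine (Finset.sum_le_sum hEp).trans ?_
    rw [Finset.sum_const, nsmul_eq_mul]
    calc ((ball n 0 ×ˢ ball n 0).card : ℝ) * p ≤ (81 * X ^ (4 : ℕ)) * (C3 * X ^ (-5 : ℝ)) :=
          mul_le_mul hcard hpC hp0 (by positivity)
      _ = 81 * C3 * X⁻¹ := by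
          have h1 : X ^ (4 : ℕ) * X ^ (-5 : ℝ) = X⁻¹ := by
            rw [← Real.rpow_natCast, ← Real.rpow_add hX0, ← Real.rpow_neg_one]
            norm_num
          calc (81 * X ^ (4 : ℕ)) * (C3 * X ^ (-5 : ℝ)) =
              81 * C3 * (X ^ (4 : ℕ) * X ^ (-5 : ℝ)) := by ring
            _ = _ := by rw [h1]
      _ ≤ c / 2 := by
          rw [← div_eq_mul_inv, div_le_iff₀ hX0]
          have h1 : 162 * C3 ≤ X * c := (div_le_iff₀ hc).1 hnc
          linarith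
  have hfin := hN0 Nn (hnN.trans hnNn)
  have h1 : nu.real {w : Ed → ℝ | BS (pw w) Nn s} ≤ _ :=
    (measureReal_mono hsub (measure_ne_top nu _)).trans (measureReal_union_le _ _)
  have h2 : c ≤ nu.real {w : Ed → ℝ | BS (pw w) Nn s} := hfin
  linarith

end Pool.Agent.H96.SY
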