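import Pool.Agent.H30.SY.Stm5
import Pool.Agent.H5.SY.Dbl

/-!
# First-passage percolation: the numbers of the second step are close to the time constant
-/

set_option autoImplicit false

open MeasureTheory ProbabilityTheory Finset Filter
open scoped Topology Pointwise

namespace Pool.Agent.H96.SY

open Q70.Fp Pool.Agent.H30.SY

/-- An event of probability at least `c` is not contained in an event of smaller probability. -/
lemma exists_in_out {A B : Set (Ed → ℝ)} {c : ℝ} (hA : c ≤ nu.real A) (hB : nu.real B < c) :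
    ∃ w, w ∈ A ∧ w ∉ B := by
  by_contra hcon
  have hsub : A ⊆ B := by
    intro w hw
    by_contra hB'
    exact hcon ⟨w, hw, hB'⟩
  have := measureReal_mono (μ := nu) hsub (measure_ne_top nu _)
  linarith

lemma dd_double (v : ℤ × ℤ) : dd 0 (v + v) ≤ 2 * dd 0 v := by
  simp only [dd, Prod.fst_add, Prod.snd_add, Prod.fst_zero, Prod.snd_zero]
  omega

lemma dd_sub_le {n : ℕ} {u v : ℤ × ℤ} (hu : dd 0 u ≤ n) (hv : dd 0 v ≤ n) :
    dd 0 (v - u) ≤ 2 * n := by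
  simp only [dd, Prod.fst_sub, Prod.snd_sub, Prod.fst_zero, Prod.snd_zero] at *
  omega

theorem t_U3 : S_U3 := by
  intro μ b m hμ hb hb1 hU ζ hζ
  set ζ' : ℝ := min (ζ / 2) ((1 - b) / 2) with hζ'
  have h1 : 0 < ζ' := lt_min (by linarith) (by linarith)
  have h2 : ζ' ≤ ζ / 2 := min_le_left _ _
  have h3 : ζ' ≤ (1 - b) / 2 := min_le_right _ _
  obtain ⟨c, hc, hev⟩ := hU ζ' h1
  set s : ℝ := b + ζ' with hs
  have hs1 : s < 1 := by linarith
  have hs0 : 0 < s := by linarith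
  obtain ⟨N, hN⟩ := eventually_atTop.1 hev
  -- doubling for `m`
  have hA : ∀ v : ℤ × ℤ, N ≤ 2 * dd 0 v →
      |m (v + v) - 2 * m v| ≤ 4 * ((2 * dd 0 v : ℕ) : ℝ) ^ s := by
    intro v hv
    obtain ⟨w, hw, -⟩ := exists_in_out (B := ∅) (hN (2 * dd 0 v) hv) (by simpa using hc)
    have hw' : ∀ x ∈ ball (2 * dd 0 v) 0, ∀ z ∈ ball (2 * dd 0 v) 0,
        |TT (pw w) x (x + z) - m z| ≤ ((2 * dd 0 v : ℕ) : ℝ) ^ s ∧
        |TT (pw w) x (x + z + z) - 2 * TT (pw w) x (x + z)| ≤ ((2 * dd 0 v : ℕ) : ℝ) ^ s := hw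
    have m0 : (0 : ℤ × ℤ) ∈ ball (2 * dd 0 v) 0 :=
      mem_ball.2 (by rw [dd_self]; exact Nat.zero_le _)
    have mv : v ∈ ball (2 * dd 0 v) 0 := mem_ball.2 (by omega)
    have mvv : v + v ∈ ball (2 * dd 0 v) 0 := mem_ball.2 (dd_double v)
    obtain ⟨a1, a2⟩ := hw' 0 m0 v mv
    obtain ⟨a3, -⟩ := hw' 0 m0 (v + v) mvv
    rw [zero_add] at a1 a2 a3
    obtain ⟨b1, b2⟩ := abs_le.1 a1
    obtain ⟨b3, b4⟩ := abs_le.1 a2
    obtain ⟨b5, b6⟩ := abs_le.1 a3
    exact abs_le.2 ⟨by linarith, by linarith⟩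
  set r : ℝ := (2 : ℝ) ^ (s - 1) with hr
  have hr0 : 0 ≤ r := by positivity
  have hr1 : r < 1 := Real.rpow_lt_one_of_one_lt_of_neg (by norm_num) (by linarith)
  set D : ℝ := 4 * (1 - r)⁻¹ + 2 with hD
  have hD0 : 0 ≤ D := by
    have : 0 ≤ (1 - r)⁻¹ := inv_nonneg.2 (by linarith)
    linarith
  -- large vectors
  have hB : ∀ v : ℤ × ℤ, N < dd 0 v → |m v - mz μ v| ≤ D * (dd 0 v : ℝ) ^ s := by
    intro v hv
    have hn1 : 1 ≤ dd 0 v := by omega
    have hn : (0 : ℝ) < dd 0 v := by exact_mod_cast hn1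
    set n : ℝ := (dd 0 v : ℝ) with hnd
    set vk : ℕ → ℤ × ℤ := fun k => ((2 ^ k : ℕ) : ℤ) • v with hvk
    have hvk0 : vk 0 = v := by simp [hvk]
    have hvks : ∀ k, vk k + vk k = vk (k + 1) := by
      intro k
      simp only [hvk]
      rw [← add_smul]
      congr 1
      push_cast
      ring
    have hdkn : ∀ k, dd 0 (vk k) = 2 ^ k * dd 0 v := by
      intro k
      have h4 := dd_smul (2 ^ k) 0 v
      rw [smul_zero] at h4
      exact h4
    have hdk : ∀ k, (dd 0 (vk k) : ℝ) = 2 ^ k * n := by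
      intro k
      rw [hdkn k]
      push_cast
      rfl
    have hNk : ∀ k, N ≤ dd 0 (vk k) := by
      intro k
      rw [hdkn k]
      have := Nat.le_mul_of_pos_left (dd 0 v) (show 0 < 2 ^ k by positivity)
      omega
    have hpow : ∀ k : ℕ, ((2 : ℝ) ^ k * n) ^ s / 2 ^ k = r ^ k * n ^ s := by
      intro k
      rw [Pool.Agent.H5.SY.dbl_pow n hn.le s k, hr, Real.rpow_sub_one (by norm_num), div_pow]
      ring
    have hstep : ∀ K : ℕ, |m v - m (vk K) / 2 ^ K| ≤ 4 * (1 - r)⁻¹ * n ^ s := by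
      intro K
      have g1 : ∀ k < K, |m (vk (k + 1)) - 2 * m (vk k)| ≤ 4 * ((2 : ℝ) ^ (k + 1) * n) ^ s := by
        intro k _
        have g2 := hA (vk k) (by have := hNk k; omega)
        rw [hvks k] at g2
        have e : ((2 * dd 0 (vk k) : ℕ) : ℝ) = (2 : ℝ) ^ (k + 1) * n := by
          push_cast
          rw [hdk k, pow_succ]
          ring
        rw [e] at g2
        exact g2
      have g3 := Pool.Agent.H5.SY.tele (fun k => m (vk k))
        (fun k => 4 * ((2 : ℝ) ^ (k + 1) * n) ^ s) K g1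
      simp only [hvk0] at g3
      refine g3.trans ?_
      calc ∑ k ∈ range K, 4 * ((2 : ℝ) ^ (k + 1) * n) ^ s / 2 ^ (k + 1)
          ≤ ∑ k ∈ range K, 4 * n ^ s * r ^ k := by
            refine Finset.sum_le_sum fun k _ => ?_
            rw [mul_div_assoc, hpow (k + 1), pow_succ]
            have g4 : r ^ k * r ≤ r ^ k := mul_le_of_le_one_right (by positivity) hr1.le
            have g5 : 0 ≤ n ^ s := by positivity
            nlinarith [mul_le_mul_of_nonneg_right g4 g5]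
        _ = 4 * n ^ s * ∑ k ∈ range K, r ^ k := by rw [Finset.mul_sum]
        _ ≤ 4 * n ^ s * (1 - r)⁻¹ :=
            mul_le_mul_of_nonneg_left (Pool.Agent.H5.SY.geo hr0 hr1 K) (by positivity)
        _ = _ := by ring
    have hns : 0 < n ^ s := by positivity
    have hlim : Tendsto (fun K : ℕ =>
        nu.real {w | n ^ s ≤ |TT (pw w) 0 (((2 ^ K : ℕ) : ℤ) • v) / ((2 ^ K : ℕ) : ℝ) - mz μ v|}) atTop
        (𝓝 0) := (prob_lim hμ v (ε := n ^ s) (by positivity)).comp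
        (tendsto_pow_atTop_atTop_of_one_lt (r := 2) (by norm_num))
    obtain ⟨K, hK⟩ := (hlim.eventually (gt_mem_nhds hc)).exists
    obtain ⟨w, hw, hwK⟩ := exists_in_out (hN (dd 0 (vk K)) (hNk K)) hK
    have hw' : ∀ x ∈ ball (dd 0 (vk K)) 0, ∀ z ∈ ball (dd 0 (vk K)) 0,
        |TT (pw w) x (x + z) - m z| ≤ (dd 0 (vk K) : ℝ) ^ s ∧
        |TT (pw w) x (x + z + z) - 2 * TT (pw w) x (x + z)| ≤ (dd 0 (vk K) : ℝ) ^ s := hw
    have hwK' : |TT (pw w) 0 (vk K) / 2 ^ K - mz μ v| < n ^ s := by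
      have g1 := not_le.1 (show ¬ (n ^ s ≤
        |TT (pw w) 0 (((2 ^ K : ℕ) : ℤ) • v) / ((2 ^ K : ℕ) : ℝ) - mz μ v|) from hwK)
      have g2 : ((2 ^ K : ℕ) : ℝ) = 2 ^ K := by push_cast; rfl
      rw [g2] at g1
      exact g1
    have a1 := (hw' 0 (mem_ball.2 (by rw [dd_self]; exact Nat.zero_le _)) (vk K)
      (mem_ball.2 le_rfl)).1
    rw [zero_add, hdk K] at a1
    have h2K : (0 : ℝ) < 2 ^ K := by positivity
    have a2 : |m (vk K) / 2 ^ K - TT (pw w) 0 (vk K) / 2 ^ K| ≤ n ^ s := by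
      rw [← sub_div, abs_div, abs_of_pos h2K, abs_sub_comm]
      refine (div_le_div_of_nonneg_right a1 h2K.le).trans ?_
      rw [hpow K]
      have : r ^ K ≤ 1 := pow_le_one₀ hr0 hr1.le
      nlinarith
    have a3 := hstep K
    have a4 : |m v - mz μ v| ≤ |m v - m (vk K) / 2 ^ K| +
        |m (vk K) / 2 ^ K - TT (pw w) 0 (vk K) / 2 ^ K| + |TT (pw w) 0 (vk K) / 2 ^ K - mz μ v| := by
      have b1 := abs_sub_le (m v) (m (vk K) / 2 ^ K) (mz μ v)
      have b2 := abs_sub_le (m (vk K) / 2 ^ K) (TT (pw w) 0 (vk K) / 2 ^ K) (mz μ v)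
      linarith
    have a5 : D * n ^ s = 4 * (1 - r)⁻¹ * n ^ s + 2 * n ^ s := by rw [hD]; ring
    linarith
  -- all vectors
  set E : ℝ := ∑ v ∈ ball N 0, |m v - mz μ v| with hE
  have hE0 : 0 ≤ E := Finset.sum_nonneg fun _ _ => abs_nonneg _
  have hall : ∀ v : ℤ × ℤ, |m v - mz μ v| ≤ D * (dd 0 v : ℝ) ^ s + E := by
    intro v
    by_cases hv : dd 0 v ≤ N
    · have g1 : |m v - mz μ v| ≤ E :=
        Finset.single_le_sum (f := fun v => |m v - mz μ v|) (fun _ _ => abs_nonneg _)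
          (mem_ball.2 hv)
      have g2 : 0 ≤ D * (dd 0 v : ℝ) ^ s := mul_nonneg hD0 (by positivity)
      linarith
    · have g1 := hB v (not_le.1 hv)
      linarith
  have hlim : Tendsto (fun n : ℕ => (n : ℝ) ^ (b + ζ - s)) atTop atTop :=
    (tendsto_rpow_atTop (by linarith)).comp tendsto_natCast_atTop_atTop
  refine ⟨c, hc, ?_⟩
  filter_upwards [hlim.eventually_ge_atTop ((1 + D) * 2 ^ s + E), eventually_ge_atTop 1,
    eventually_ge_atTop N] with n hn hn1 hnN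
  refine (hN (2 * n) (by omega)).trans (measureReal_mono ?_ (measure_ne_top nu _))
  intro w hw
  have hw' : ∀ x ∈ ball (2 * n) 0, ∀ z ∈ ball (2 * n) 0,
      |TT (pw w) x (x + z) - m z| ≤ ((2 * n : ℕ) : ℝ) ^ s ∧
      |TT (pw w) x (x + z + z) - 2 * TT (pw w) x (x + z)| ≤ ((2 * n : ℕ) : ℝ) ^ s := hw
  show ∀ u ∈ ball n 0, ∀ v ∈ ball n 0, |TT (pw w) u v - mz μ (v - u)| ≤ (n:ℝ) ^ (b + ζ)
  intro u hu v hv
  have hu' := mem_ball.1 hu
  have hv' := mem_ball.1 hv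
  have hd := dd_sub_le hu' hv'
  have a1 := (hw' u (mem_ball.2 (by omega)) (v - u) (mem_ball.2 hd)).1
  rw [add_sub_cancel] at a1
  have a2 := hall (v - u)
  have hn0 : (0 : ℝ) < n := by exact_mod_cast hn1
  have a3 : (dd 0 (v - u) : ℝ) ^ s ≤ ((2 * n : ℕ) : ℝ) ^ s :=
    Real.rpow_le_rpow (by positivity) (by exact_mod_cast hd) hs0.le
  have a4 : ((2 * n : ℕ) : ℝ) ^ s = 2 ^ s * (n : ℝ) ^ s := by
    push_cast
    exact Real.mul_rpow (by norm_num) hn0.le
  have a5 : (1 : ℝ) ≤ (n : ℝ) ^ s := Real.one_le_rpow (by exact_mod_cast hn1) hs0.le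
  have a6 : (n : ℝ) ^ (b + ζ) = (n : ℝ) ^ (b + ζ - s) * (n : ℝ) ^ s := by
    rw [← Real.rpow_add hn0]
    congr 1
    ring
  have a7 : |TT (pw w) u v - mz μ (v - u)| ≤ |TT (pw w) u v - m (v - u)| +
      |m (v - u) - mz μ (v - u)| := abs_sub_le _ _ _
  have a8 : D * (dd 0 (v - u) : ℝ) ^ s ≤ D * (2 ^ s * (n : ℝ) ^ s) := by
    rw [← a4]
    exact mul_le_mul_of_nonneg_left a3 hD0
  have a9 : E ≤ E * (n : ℝ) ^ s := le_mul_of_one_le_right hE0 a5
  rw [a4] at a1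
  calc |TT (pw w) u v - mz μ (v - u)| ≤ ((1 + D) * 2 ^ s + E) * (n : ℝ) ^ s := by nlinarith
    _ ≤ (n : ℝ) ^ (b + ζ - s) * (n : ℝ) ^ s := mul_le_mul_of_nonneg_right hn (by positivity)
    _ = (n : ℝ) ^ (b + ζ) := a6.symm

end Pool.Agent.H96.SY
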